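import Pool.Agent.Helper70_Net.Curv

set_option autoImplicit false

open MeasureTheory
open Helper70.Net

namespace Pool.Agent.Results.MP_34cb49_gt.TripodRigidityFails

/-- Tripod rigidity fails for arbitrarily small total curvature: for every `ε > 0` there is a
Riemannian plane, Euclidean outside a compact set, with `∫ K⁺ dA < ε` (and even `∫ |K| dA < ε`),
carrying a geodesic net with exactly three unbalanced vertices and four balanced vertices, all of
degree three.  Hence the statement of Q1 is false. -/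
theorem result :
    (∀ ε : ℝ, 0 < ε → ∃ (M : RiemannianPlane) (N : GeodesicNet M),
      M.totalPositiveCurvature < ENNReal.ofReal ε ∧
      (∫⁻ p : Pt, ENNReal.ofReal (|M.gaussCurvature p| * Real.sqrt (M.detg p))) <
        ENNReal.ofReal ε ∧
      (∃ C : Set Pt, IsCompact C ∧ ∀ p ∉ C, ∀ i j, M.g i j p = if i = j then 1 else 0) ∧
      N.unbalanced.card = 3 ∧
      (Finset.univ \ N.unbalanced).card = 4 ∧
      (∀ v, v ∉ N.unbalanced → N.degree v = 3) ∧
      N.IsSimpleGraph ∧ ¬ N.IsTripod) ∧
    ¬ ∃ ε : ℝ, 0 < ε ∧ ∀ M : RiemannianPlane, M.totalPositiveCurvature < ENNReal.ofReal ε →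
      ∀ N : GeodesicNet M, N.unbalanced.card = 3 → N.IsTripod := by
  have key : ∀ ε : ℝ, 0 < ε → ∃ (M : RiemannianPlane) (N : GeodesicNet M),
      M.totalPositiveCurvature < ENNReal.ofReal ε ∧
      (∫⁻ p : Pt, ENNReal.ofReal (|M.gaussCurvature p| * Real.sqrt (M.detg p))) <
        ENNReal.ofReal ε ∧
      (∃ C : Set Pt, IsCompact C ∧ ∀ p ∉ C, ∀ i j, M.g i j p = if i = j then 1 else 0) ∧
      N.unbalanced.card = 3 ∧
      (Finset.univ \ N.unbalanced).card = 4 ∧
      (∀ v, v ∉ N.unbalanced → N.degree v = 3) ∧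
      N.IsSimpleGraph ∧ ¬ N.IsTripod := by
    intro ε hε
    obtain ⟨m, hm, hm', htot⟩ := total_lt hε
    refine ⟨conf (uu m) (uu_contDiff m), theNet hm hm', ?_, htot, ?_, ?_, ?_, ?_, ?_, ?_⟩
    · refine lt_of_le_of_lt (lintegral_mono fun p => ENNReal.ofReal_le_ofReal ?_) htot
      exact mul_le_mul_of_nonneg_right (max_le (le_abs_self _) (abs_nonneg _))
        (Real.sqrt_nonneg _)
    · refine ⟨Box, isCompact_Icc, fun p hp i j => ?_⟩
      have h0 := uu_outside hm hm' (dot_of_notMem_box hp)
      rw [conf_g]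
      simp [h0]
    · change unb.card = 3
      decide
    · change ((Finset.univ : Finset VV) \ unb).card = 4
      decide
    · intro v hv
      exact deg_lemma v hv
    · have h1 : ∀ e : Ed, srcV e ≠ tgtV e := by decide
      have h2 : ∀ e f : Ed, ((srcV e = srcV f ∧ tgtV e = tgtV f) ∨
          (srcV e = tgtV f ∧ tgtV e = srcV f)) → e = f := by decide
      exact ⟨h1, h2⟩
    · rintro ⟨O, hO, -, -⟩
      have h1 : (none : VV) ∉ unb := by decide
      have h2 : (some (0, false) : VV) ∉ unb := by decide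
      have h3 : (none : VV) = O := (hO none).mp h1
      have h4 : (some (0, false) : VV) = O := (hO (some (0, false))).mp h2
      rw [← h4] at h3
      exact Option.some_ne_none _ h3.symm
  refine ⟨key, ?_⟩
  rintro ⟨ε, hε, h⟩
  obtain ⟨M, N, h1, -, -, h2, -, -, -, h3⟩ := key ε hε
  exact h3 (h M h1 N h2)

end Pool.Agent.Results.MP_34cb49_gt.TripodRigidityFails
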